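import Pool.Agent.helper39.CTL.Dev

/-!
# Languages in exponential space which are immune against machines and automata

For every `c ≥ 1` there is a language in `DSPACE (2 ^ (c n))` such that every device of any dimension
(a multi-tape Turing machine with `d`-dimensional tapes or a `d`-dimensional cellular automaton),
alone or with a controller (a deterministic machine with `2 ^ (c n) / (log n + 1)` cells and without
time bound which is told at each step the answer of the device for the word on its tape), if it gives
only finitely many wrong answers, gives an answer in time only to finitely many inputs.
-/

set_option autoImplicit false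

namespace Pool.Agent.Results.MP_d67941_lc.BiImmune

open Pool.Agent.helper12.SP (DSPACE)
open Pool.Agent.helper39.MESH (InTime)
open Pool.Agent.helper39.CTL

theorem result (c : ℕ) (hc : 1 ≤ c) :
    ∃ L : Set (List Bool), (∃ C : ℕ, L ∈ DSPACE (fun n => C * 2 ^ (c * n))) ∧
      ∀ (d : ℕ) [NeZero d] (D : CDev d),
        {w : List Bool | ∃ b : Bool, D.Answers c w [] (fun _ => True) b ∧
          ¬ (b = true ↔ w ∈ L)}.Finite →
        {w : List Bool | ∃ b : Bool, D.Answers c w [] (InTime c d w.length) b}.Finite :=
  immune c hc

end Pool.Agent.Results.MP_d67941_lc.BiImmune
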