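import Pool.Agent.helper39.CTL.Dev

/-!
# Languages in exponential space which are hard for errorless machines and automata

For every `c ≥ 1` there is a language in `DSPACE (2 ^ (c n))` such that every device of dimension
`d ≥ 1` (a multi-tape Turing machine with `d`-dimensional tapes or a `d`-dimensional cellular
automaton), alone or with a controller (a deterministic machine with `2 ^ (c n) / (log n + 1)` cells
and without time bound which is told at each step the answer of the device for the word on its tape),
with any advice `α` depending on the input length, if it never gives a wrong answer on inputs of length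
`n`, answers at most `|α| + 2 log (|α| + 1) + log n + 4` of the inputs of length `n` in time.
-/

set_option autoImplicit false

namespace Pool.Agent.Results.MP_d67941_lc.ErrorlessHard

open Pool.Agent.helper12.SP (DSPACE)
open Pool.Agent.helper39.MESH (InTime)
open Pool.Agent.helper39.CTL

theorem result (c : ℕ) (hc : 1 ≤ c) :
    ∃ L : Set (List Bool), (∃ C : ℕ, L ∈ DSPACE (fun n => C * 2 ^ (c * n))) ∧
      ∀ (d : ℕ) [NeZero d] (D : CDev d), ∃ n₀ : ℕ, ∀ n ≥ n₀, ∀ α : List Bool,
        (∀ (w : List Bool) (b : Bool), w.length = n → D.Answers c w α (fun _ => True) b →
          (b = true ↔ w ∈ L)) →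
        {w : List Bool | w.length = n ∧ ∃ b : Bool, D.Answers c w α (InTime c d n) b}.ncard ≤
            α.length + 2 * Nat.log 2 (α.length + 1) + Nat.log 2 n + 4 :=
  errorless c hc

end Pool.Agent.Results.MP_d67941_lc.ErrorlessHard
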