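import Pool.Agent.helper39.CTL.Dev

/-!
# Languages in exponential space which are hard for machines and automata of all dimensions

For every `c ≥ 1` there is a language in `DSPACE (2 ^ (c n))` such that every device of dimension
`d ≥ 1` (a multi-tape Turing machine with `d`-dimensional tapes or a `d`-dimensional cellular
automaton), alone or with a controller (a deterministic machine with `2 ^ (c n) / (log n + 1)` cells
and without time bound which is told at each step the answer of the device for the word on its tape),
with any advice of `|α|` bits depending on the input length, gives the right answer in times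
`t ≤ 2 ^ ((1 + 1 / d) c n) / ((n + 1) (log n + 1) ^ (1 / d))` on at most
`1 / 2 + (2 (|α| + 2 n) / 2 ^ n) ^ (1 / 2) / 2` of the inputs of length `n`, and not on all of them if
the advice has at most `2 ^ n - 2 n` bits.
-/

set_option autoImplicit false

namespace Pool.Agent.Results.MP_d67941_lc.HardForMeshes

open Pool.Agent.helper12.SP (DSPACE)
open Pool.Agent.helper39.CTL

theorem result (c : ℕ) (hc : 1 ≤ c) :
    ∃ L : Set (List Bool), (∃ C : ℕ, L ∈ DSPACE (fun n => C * 2 ^ (c * n))) ∧
      ∀ (d : ℕ) [NeZero d] (D : CDev d), ∃ n₀ : ℕ, ∀ n ≥ n₀, ∀ α : List Bool,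
        (α.length + 2 * n ≤ 2 ^ n → (right D L c n α).ncard < 2 ^ n) ∧
        (2 * (right D L c n α).ncard - 2 ^ n) ^ 2 ≤ 2 * 2 ^ n * (α.length + 2 * n) :=
  avg c hc

end Pool.Agent.Results.MP_d67941_lc.HardForMeshes
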