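import Pool.Agent.helper39.MESH.Time

/-!
# The time of cellular automata in terms of space

Every language decided by a `d`-dimensional cellular automaton in time `T n` can be decided in space
`O (S n)` by a Turing machine, if `S n ≥ n + 1` and `T ^ d * (log S + 1) ^ d ≤ S ^ (d + 1)`, that
is, in space about `(T * log T) ^ (d / (d + 1))`.
-/

set_option autoImplicit false

namespace Pool.Agent.Results.MP_d67941_lc.MeshTimeInSpace

open Pool.Agent.helper12.SP (DSPACE)
open Pool.Agent.helper39.MESH

theorem result (d : ℕ) [NeZero d] (A : Aut d) (L : Set (List Bool)) (S : ℕ → ℕ)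
    (hS : ∀ n, n + 1 ≤ S n)
    (hL : ∀ w : List Bool, ∃ (t : ℕ) (b : Bool), A.Answers w [] t b ∧ (b = true ↔ w ∈ L) ∧
      t ^ d * (Nat.log 2 (S w.length) + 1) ^ d ≤ S w.length ^ (d + 1)) :
    ∃ C : ℕ, L ∈ DSPACE (fun n => C * S n) :=
  time A L S hS hL

end Pool.Agent.Results.MP_d67941_lc.MeshTimeInSpace
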